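import Pool.Agent.Helper32_ND.Stmts

/-!
# Squad ND, module CHN: the functionals behave like `f ^ (s - k)`
-/

set_option autoImplicit false

namespace Pool.Agent.ND.H81

open Finset

section

variable {ι : Type} [Fintype ι] {n : ℕ} (L : ι → Fin n → ℂ)

/-- products of powers of the forms -/
noncomputable def mon (κ : ι → ℕ) : MvPolynomial (Fin n) ℂ := ∏ i, lin (L i) ^ κ i

lemma mon_zero : mon L 0 = 1 := by
  unfold mon
  simp

lemma mon_add (κ κ' : ι → ℕ) : mon L (κ + κ') = mon L κ * mon L κ' := by
  unfold mon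
  rw [← Finset.prod_mul_distrib]
  exact Finset.prod_congr rfl fun i _ => by rw [Pi.add_apply, pow_add]

lemma mon_nsmul (a : ℕ) (κ : ι → ℕ) : mon L (a • κ) = mon L κ ^ a := by
  induction a with
  | zero => rw [zero_smul, pow_zero, mon_zero]
  | succ a ih => rw [succ_nsmul, mon_add, ih, pow_succ]

lemma mon_sum {τ : Type} (S : Finset τ) (κ : τ → ι → ℕ) :
    mon L (∑ p ∈ S, κ p) = ∏ p ∈ S, mon L (κ p) := by
  classical
  induction S using Finset.induction_on with
  | empty => rw [Finset.sum_empty, Finset.prod_empty, mon_zero]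
  | insert a S ha ih => rw [Finset.sum_insert ha, Finset.prod_insert ha, mon_add, ih]

lemma mon_single [DecidableEq ι] (j : ι) : mon L (Pi.single j 1) = lin (L j) := by
  unfold mon
  rw [Finset.prod_eq_single j]
  · rw [Pi.single_eq_same, pow_one]
  · intro i _ hi
    rw [Pi.single_eq_of_ne hi, pow_zero]
  · intro h
    exact absurd (Finset.mem_univ j) h

lemma pderiv_lin (p : Fin n) (v : Fin n → ℂ) :
    MvPolynomial.pderiv p (lin v) = MvPolynomial.C (v p) := by
  unfold lin
  rw [map_sum, Finset.sum_eq_single p]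
  · rw [Derivation.leibniz, MvPolynomial.pderiv_X_self, MvPolynomial.pderiv_C]
    simp
  · intro q _ hq
    rw [Derivation.leibniz, MvPolynomial.pderiv_X_of_ne hq, MvPolynomial.pderiv_C]
    simp
  · intro h
    exact absurd (Finset.mem_univ p) h

lemma lin_single [DecidableEq ι] (p : Fin n) : lin (Pi.single p 1 : Fin n → ℂ) = MvPolynomial.X p := by
  unfold lin
  rw [Finset.sum_eq_single p]
  · rw [Pi.single_eq_same, map_one, one_mul]
  · intro q _ hq
    rw [Pi.single_eq_of_ne hq, map_zero, zero_mul]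
  · intro h
    exact absurd (Finset.mem_univ p) h

lemma pderiv_prod [DecidableEq ι] (p : Fin n) (κ : ι → ℕ) (S : Finset ι) :
    MvPolynomial.pderiv p (∏ i ∈ S, lin (L i) ^ κ i) =
      ∑ i ∈ S, ((κ i : ℂ) * L i p) • ∏ j ∈ S, lin (L j) ^ ((κ - Pi.single i 1 : ι → ℕ) j) := by
  induction S using Finset.induction_on with
  | empty => simp
  | insert a S ha ih =>
    rw [Finset.prod_insert ha, Derivation.leibniz, ih, Finset.sum_insert ha, Derivation.leibniz_pow,
      pderiv_lin, add_comm]
    congr 1
    · rw [Finset.prod_insert ha]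
      have h1 : ∏ j ∈ S, lin (L j) ^ ((κ - Pi.single a 1 : ι → ℕ) j) = ∏ j ∈ S, lin (L j) ^ κ j := by
        refine Finset.prod_congr rfl fun j hj => ?_
        have hja : j ≠ a := fun h => ha (h ▸ hj)
        rw [Pi.sub_apply, Pi.single_eq_of_ne hja, Nat.sub_zero]
      rw [h1, Pi.sub_apply, Pi.single_eq_same, smul_eq_mul, smul_eq_mul, nsmul_eq_mul,
        MvPolynomial.smul_eq_C_mul, map_mul, map_natCast]
      ring
    · rw [smul_eq_mul, Finset.mul_sum]
      refine Finset.sum_congr rfl fun i hi => ?_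
      have hia : a ≠ i := fun h => ha (h ▸ hi)
      rw [Finset.prod_insert ha, Pi.sub_apply, Pi.single_eq_of_ne hia, Nat.sub_zero, mul_smul_comm]

lemma pderiv_mon [DecidableEq ι] (p : Fin n) (κ : ι → ℕ) :
    MvPolynomial.pderiv p (mon L κ) =
      ∑ i, ((κ i : ℂ) * L i p) • mon L (κ - Pi.single i 1) := pderiv_prod L p κ Finset.univ

/-- the products of the forms span the polynomials -/
lemma mon_induction [DecidableEq ι] (B : Fin n → ι) (hB : ∀ p, L (B p) = Pi.single p 1)
    {Pr : MvPolynomial (Fin n) ℂ → Prop} (h0 : ∀ κ, Pr (mon L κ))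
    (hadd : ∀ a b, Pr a → Pr b → Pr (a + b)) (hsmul : ∀ (c : ℂ) a, Pr a → Pr (c • a)) :
    ∀ q, Pr q := by
  intro q
  induction q using MvPolynomial.induction_on' with
  | monomial u a =>
    have h1 : MvPolynomial.monomial u a = a • mon L (∑ p, u p • Pi.single (B p) 1) := by
      rw [mon_sum, MvPolynomial.monomial_eq, MvPolynomial.smul_eq_C_mul]
      congr 1
      rw [Finsupp.prod_fintype _ _ (fun i => pow_zero _)]
      refine Finset.prod_congr rfl fun p _ => ?_
      rw [mon_nsmul, mon_single, hB]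
      congr 1
      exact (lin_single (ι := ι) p).symm
    rw [h1]
    exact hsmul _ _ (h0 _)
  | add a b ha hb => exact hadd _ _ ha hb

end

theorem chn (hFAM : FamStmt) (hXI : XiStmt) (hFUN : FunStmt) : ChnStmt := by
  intro ι _ _ M A P K _ _ B hB m hm s hs y
  set σ : ℕ → ι → K := fun k i => (s - (k : K)) * (m i : K) with hσdef
  have hσ0 : σ 0 = fun i => s * (m i : K) := by
    funext i
    simp [hσdef]
  have hσs : ∀ k i, σ (k + 1) i + (m i : K) = σ k i := by
    intro k i
    simp only [hσdef]
    push_cast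
    ring
  have hex : ∀ (k : ℕ) (y' : OS A K (M + 2)) (κ₀ : ι → ℕ),
      ∃ t : (ι → ℕ) → OS A K (M + 2), IsFam P (σ k) t ∧ t κ₀ = y' :=
    fun k y' κ₀ => (hFAM ι M A P K (σ k)).1 (hs k) κ₀ y'
  choose F hF1 hF2 using hex
  let t : ℕ → (ι → ℕ) → OS A K (M + 2) :=
    fun k => Nat.rec (F 0 y (cnt B)) (fun k tk => F (k + 1) (tk 0) m) k
  have hts : ∀ k, t (k + 1) = F (k + 1) (t k 0) m := fun k => rfl
  have hfam : ∀ k, IsFam P (σ k) (t k) := by
    intro k
    cases k with
    | zero => exact hF1 0 y (cnt B)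
    | succ k => exact hF1 (k + 1) (t k 0) m
  have hrel : ∀ k κ, t (k + 1) (m + κ) = t k κ := by
    intro k κ
    have h1 : IsFam P (σ k) (fun κ => t (k + 1) (m + κ)) := by
      intro κ j
      have h2 := hfam (k + 1) (m + κ) j
      rw [add_assoc] at h2
      refine h2.trans ?_
      have h3 : (fun i => σ (k + 1) i + (((m + κ) i : ℕ) : K) + ev j i) =
          fun i => σ k i + (κ i : K) + ev j i := by
        funext i
        rw [← hσs k i, Pi.add_apply]
        push_cast
        ring
      rw [h3]
    have h4 := (hFAM ι M A P K (σ k)).2.1 _ _ h1 (hfam k) 0 (by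
      show t (k + 1) (m + 0) = t k 0
      rw [add_zero, hts]
      exact hF2 (k + 1) (t k 0) m) κ
    rw [zero_add] at h4
    exact h4
  have hφrel : ∀ k κ, phi A (σ (k + 1)) B (t (k + 1)) (m + κ) = phi A (σ k) B (t k) κ := by
    intro k κ
    unfold phi
    rw [add_assoc m κ, hrel]
    have h3 : (fun i => σ (k + 1) i + (((m + κ) i : ℕ) : K) + (cnt B i : K)) =
        fun i => σ k i + (κ i : K) + (cnt B i : K) := by
      funext i
      rw [← hσs k i, Pi.add_apply]
      push_cast
      ring
    rw [h3]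
  have hXk := fun k => hXI ι M A P K (σ k) B hB (hs k) (t k) (hfam k)
  have hξex : ∀ k, ∃ Ξ : MvPolynomial (Fin (M + 2)) ℂ →ₗ[ℂ] K, ∀ κ : ι → ℕ,
      Ξ (∏ i, lin (A.L i) ^ κ i) = phi A (σ k) B (t k) κ :=
    fun k => hFUN ι (M + 2) A.L B hB K _ (hXk k).1
  choose ξ hξ using hξex
  have hξ' : ∀ k κ, ξ k (mon A.L κ) = phi A (σ k) B (t k) κ := fun k κ => hξ k κ
  refine ⟨t 0, ξ, hσ0 ▸ hfam 0, hF2 0 y (cnt B), fun κ => ?_, fun k q => ?_, fun k p q => ?_⟩
  · rw [hξ 0 κ, hσ0]
  · refine mon_induction A.L B hB (Pr := fun q => ξ (k + 1) (fW A.L m * q) = ξ k q)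
      (fun κ => ?_) (fun a b ha hb => ?_) (fun c a ha => ?_) q
    · have h1 : fW A.L m * mon A.L κ = mon A.L (m + κ) := (mon_add A.L m κ).symm
      rw [h1, hξ', hξ', hφrel]
    · rw [mul_add, map_add, map_add, ha, hb]
    · rw [mul_smul_comm, map_smul, map_smul, ha]
  · refine mon_induction A.L B hB (Pr := fun q => algebraMap ℂ K (P.l0 p) * ξ k q -
        ξ k (MvPolynomial.pderiv p q) =
        (s - (k : K)) * ξ (k + 1) (MvPolynomial.pderiv p (fW A.L m) * q))
      (fun κ => ?_) (fun a b ha hb => ?_) (fun c a ha => ?_) q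
    · have h1 : ∀ i, 1 ≤ (m + κ) i := fun i => by
        have := hm i
        rw [Pi.add_apply]
        omega
      have h2 := (hXk (k + 1)).2 (m + κ) h1 p
      have h3 : (fW A.L m : MvPolynomial (Fin (M + 2)) ℂ) = mon A.L m := rfl
      have h4 : ξ (k + 1) (MvPolynomial.pderiv p (fW A.L m) * mon A.L κ) =
          ∑ i, (m i : K) * algebraMap ℂ K (A.L i p) *
            phi A (σ (k + 1)) B (t (k + 1)) (m + κ - Pi.single i 1) := by
        rw [h3, pderiv_mon, Finset.sum_mul, map_sum]
        refine Finset.sum_congr rfl fun i _ => ?_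
        rw [smul_mul_assoc, ← mon_add, map_smul, hξ', Algebra.smul_def, map_mul, map_natCast]
        congr 2
        funext j
        rw [Pi.add_apply, Pi.sub_apply, Pi.sub_apply, Pi.add_apply]
        by_cases hj : j = i
        · subst hj
          rw [Pi.single_eq_same]
          have := hm j
          omega
        · rw [Pi.single_eq_of_ne hj]
          omega
      have h5 : ξ k (MvPolynomial.pderiv p (mon A.L κ)) =
          ∑ i, (κ i : K) * algebraMap ℂ K (A.L i p) *
            phi A (σ (k + 1)) B (t (k + 1)) (m + κ - Pi.single i 1) := by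
        rw [pderiv_mon, map_sum]
        refine Finset.sum_congr rfl fun i _ => ?_
        rw [map_smul, hξ', Algebra.smul_def, map_mul, map_natCast]
        by_cases hi : κ i = 0
        · rw [hi]
          simp
        · congr 1
          rw [← hφrel]
          congr 1
          funext j
          rw [Pi.add_apply, Pi.sub_apply, Pi.sub_apply, Pi.add_apply]
          by_cases hj : j = i
          · subst hj
            rw [Pi.single_eq_same]
            omega
          · rw [Pi.single_eq_of_ne hj]
            omega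
      rw [hξ', ← hφrel, h2, h5, h4, ← Finset.sum_sub_distrib, Finset.mul_sum]
      refine Finset.sum_congr rfl fun i _ => ?_
      have h6 : σ (k + 1) i + (((m + κ) i : ℕ) : K) = (s - (k : K)) * (m i : K) + (κ i : K) := by
        have h7 := hσs k i
        rw [Pi.add_apply]
        push_cast
        rw [← add_assoc, h7]
      rw [h6]
      ring
    · simp only [map_add, mul_add]
      rw [add_sub_add_comm, ha, hb]
    · simp only [Derivation.map_smul, map_smul, mul_smul_comm]
      rw [← smul_sub, ha]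

end Pool.Agent.ND.H81
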