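import Pool.Agent.Helper32_ND.Stmts
import Pool.Agent.Helper66_OMP.Root1

/-!
# Squad ND, module RK1: rank one
-/

set_option autoImplicit false

namespace Pool.Agent.ND.H81

open Finset

lemma lp_sub {σ : Type} (a b : MvPolynomial σ ℂ) : lp (a - b) = lp a - lp b := by
  funext l
  unfold lp
  rw [MvPolynomial.coeff_sub]
  rfl

lemma lp_smul {σ : Type} (c : ℂ) (a : MvPolynomial σ ℂ) : lp (c • a) = c • lp a := by
  funext l
  unfold lp
  rw [MvPolynomial.coeff_smul]
  rfl

lemma const_of {σ : Type} (b : MvPolynomial σ ℂ) (h1 : b.totalDegree ≤ 1) (h2 : lp b = 0) :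
    b = MvPolynomial.C (MvPolynomial.coeff 0 b) := by
  classical
  ext m
  rw [MvPolynomial.coeff_C]
  by_cases hm : 0 = m
  · rw [if_pos hm, hm]
  · rw [if_neg hm]
    by_cases h3 : b.totalDegree < ∑ i ∈ m.support, m i
    · exact MvPolynomial.coeff_eq_zero_of_totalDegree_lt h3
    · have h5 : m.sum (fun _ n => n) ≠ 0 := by
        intro h6
        apply hm
        symm
        rw [Finsupp.sum, Finset.sum_eq_zero_iff] at h6
        ext l
        by_cases hl : l ∈ m.support
        · exact h6 l hl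
        · exact Finsupp.notMem_support_iff.1 hl
      have h4 : m.sum (fun _ n => n) = 1 := by
        have : m.sum (fun _ n => n) = ∑ i ∈ m.support, m i := rfl
        omega
      obtain ⟨l, rfl⟩ := (Finsupp.sum_eq_one_iff m).1 h4
      exact congrFun h2 l

theorem rk1 : Rk1Stmt := by
  intro σ ι _ _ _ a ha m hm z hz g hg h1
  obtain ⟨i₀⟩ := (inferInstance : Nonempty ι)
  set W := Submodule.span ℂ (Set.range fun i => lp (a i)) with hW
  have hmem : ∀ i, lp (a i) ∈ W := fun i => Submodule.subset_span ⟨i, rfl⟩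
  have hne : ∀ i, lp (a i) ≠ 0 := by
    intro i h
    have h2 := const_of (a i) (ha i).le h
    have h3 := ha i
    rw [h2, MvPolynomial.totalDegree_C] at h3
    exact absurd h3 (by norm_num)
  have hv : (⟨lp (a i₀), hmem i₀⟩ : W) ≠ 0 := by
    intro h
    exact hne i₀ (congrArg Subtype.val h)
  have hex : ∀ i, ∃ c : ℂ, a i = c • a i₀ := by
    intro i
    obtain ⟨c, hc⟩ := (finrank_eq_one_iff_of_nonzero' (⟨lp (a i₀), hmem i₀⟩ : W) hv).1 h1
      ⟨lp (a i), hmem i⟩
    refine ⟨c, ?_⟩
    have hc' : c • lp (a i₀) = lp (a i) := congrArg Subtype.val hc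
    have h2 : lp (a i - c • a i₀) = 0 := by
      rw [lp_sub, lp_smul, hc', sub_self]
    have h3 : (a i - c • a i₀).totalDegree ≤ 1 := by
      refine (MvPolynomial.totalDegree_sub _ _).trans (max_le (ha i).le ?_)
      exact (MvPolynomial.totalDegree_smul_le c (a i₀)).trans (ha i₀).le
    have h4 := const_of _ h3 h2
    have h5 : MvPolynomial.eval z (a i - c • a i₀) = 0 := by
      rw [map_sub, MvPolynomial.smul_eval, hz, hz, mul_zero, sub_zero]
    rw [h4, MvPolynomial.eval_C] at h5
    rw [h5, MvPolynomial.C_0] at h4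
    exact sub_eq_zero.1 h4
  choose c hc using hex
  have hc0 : ∀ i, c i ≠ 0 := by
    intro i h
    have h2 := hc i
    rw [h, zero_smul] at h2
    have h3 := ha i
    rw [h2, MvPolynomial.totalDegree_zero] at h3
    exact absurd h3 (by norm_num)
  have hirr : Irreducible (a i₀) := by
    refine MvPolynomial.irreducible_of_totalDegree_eq_one (ha i₀) fun x hx => ?_
    rw [isUnit_iff_ne_zero]
    intro h0
    rw [h0] at hx
    have h2 : a i₀ = 0 := by
      ext n
      exact zero_dvd_iff.1 (hx n)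
    have h3 := ha i₀
    rw [h2, MvPolynomial.totalDegree_zero] at h3
    exact absurd h3 (by norm_num)
  have hpos : 0 < ∑ i, m i := by
    refine Finset.sum_pos (fun i _ => hm i) ⟨i₀, Finset.mem_univ _⟩
  have hprod : ∏ i, a i ^ m i = MvPolynomial.C (∏ i, c i ^ m i) * a i₀ ^ (∑ i, m i) := by
    rw [map_prod, ← Finset.prod_pow_eq_pow_sum, ← Finset.prod_mul_distrib]
    refine Finset.prod_congr rfl fun i _ => ?_
    rw [map_pow, ← mul_pow, ← MvPolynomial.smul_eq_C_mul, ← hc i]
  have hcc : ∏ i, c i ^ m i ≠ 0 := Finset.prod_ne_zero_iff.2 fun i _ => pow_ne_zero _ (hc0 i)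
  have hfin := Helper32_OMP.H66.root1 σ ((∏ i, a i ^ m i) * g) (a i₀)
    (MvPolynomial.C (∏ i, c i ^ m i) * g) (∑ i, m i) hpos hirr (by rw [hprod]; ring) (by
      rintro ⟨h, hh⟩
      have h2 := congrArg (MvPolynomial.eval z) hh
      rw [map_mul, map_mul, hz i₀, zero_mul, MvPolynomial.eval_C] at h2
      exact (mul_ne_zero hcc hg) h2)
  rw [neg_div]
  exact hfin

end Pool.Agent.ND.H81
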